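import Pool.Agent.Y757.HW.Stm0

set_option autoImplicit false

/-! Jensen's inequality in a window -/

namespace Pool.Agent.Y765.HW

open MeasureTheory Set Pool.Agent.Y757.HW

lemma den_pos {x : ℝ} (hx1 : x ≤ 1 / 2) (v : ℝ) : 0 < (1 - x) ^ 2 + v ^ 2 := by
  have h1 : (0 : ℝ) < 1 - x := by linarith
  positivity

lemma one_le_q {x : ℝ} (hx0 : 0 ≤ x) (hx1 : x ≤ 1 / 2) (v : ℝ) : 1 ≤ q x v := by
  unfold q
  rw [le_div_iff₀ (den_pos hx1 v)]
  nlinarith

lemma continuous_q {x : ℝ} (hx1 : x ≤ 1 / 2) : Continuous (fun v => q x v) := by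
  unfold q
  refine Continuous.div (by fun_prop) (by fun_prop) (fun v => (den_pos hx1 v).ne')

lemma continuous_log_q {x : ℝ} (hx0 : 0 ≤ x) (hx1 : x ≤ 1 / 2) :
    Continuous (fun v => Real.log (q x v)) :=
  (continuous_q hx1).log (fun v => (lt_of_lt_of_le one_pos (one_le_q hx0 hx1 v)).ne')

lemma window (h : S_ker) {x g t H V : ℝ} (hx0 : 0 ≤ x) (hx1 : x ≤ 1 / 2) (hV : 2 ≤ V)
    (hg : |g - t| ≤ H / 2) :
    4 * Real.pi * x * (1 - 2 / V) ≤
      ∫ u in (t - (H / 2 + V))..(t + (H / 2 + V)), Real.log (q x (u - g)) := by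
  have hV0 : 0 < V := by linarith
  have h1 := h x V hx0 hx1 (by linarith)
  have hc : Continuous (fun u => Real.log (q x (u - g))) :=
    (continuous_log_q hx0 hx1).comp (continuous_id.sub continuous_const)
  have h2 : ∫ v in (-V)..V, Real.log (q x v) = ∫ u in (g - V)..(g + V),
      Real.log (q x (u - g)) := by
    rw [intervalIntegral.integral_comp_sub_right (fun v => Real.log (q x v)) g]
    congr 1 <;> ring
  have hg' := abs_le.mp hg
  have h3 : ∫ u in (g - V)..(g + V), Real.log (q x (u - g)) ≤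
      ∫ u in (t - (H / 2 + V))..(t + (H / 2 + V)), Real.log (q x (u - g)) := by
    apply intervalIntegral.integral_mono_interval (by linarith [hg'.1]) (by linarith)
      (by linarith [hg'.2])
    · exact Filter.Eventually.of_forall (fun u => Real.log_nonneg (one_le_q hx0 hx1 _))
    · exact hc.intervalIntegrable _ _
  have h4 : 4 * Real.pi * x * (1 - 2 / V) ≤ 4 * Real.pi * x - 16 * x / V := by
    have h5 : 16 * x / V ≤ 4 * Real.pi * x * (2 / V) := by
      rw [mul_div_assoc' (4 * Real.pi * x) 2 V]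
      apply div_le_div_of_nonneg_right _ hV0.le
      nlinarith [Real.pi_gt_three, mul_nonneg hx0 (sub_nonneg.mpr Real.pi_gt_three.le)]
    linarith
  linarith

/-- Jensen's inequality in a window. -/
theorem t_jen (h : S_ker) : S_jen := by
  intro S m k t H V hH hV hS
  set a := t - (H / 2 + V) with ha
  set b := t + (H / 2 + V) with hb
  set L := H + 2 * V with hL
  have hL0 : 0 < L := by rw [hL]; linarith
  have hab : a ≤ b := by rw [ha, hb]; linarith
  have hba : b - a = L := by rw [ha, hb, hL]; ring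
  have hx : ∀ ρ ∈ S, 0 ≤ ρ.re - 1 / 2 ∧ ρ.re - 1 / 2 ≤ 1 / 2 := by
    intro ρ hρ
    obtain ⟨h1, h2, -⟩ := hS ρ hρ
    constructor <;> linarith
  set E0 := 4 * Real.pi * k / L * (1 - 2 / V) * ∑ ρ ∈ S, (m ρ : ℝ) * (ρ.re - 1 / 2) with hE0
  let φ : ℝ → ℝ := fun u => ∑ ρ ∈ S, ((k * m ρ : ℕ) : ℝ) *
    Real.log (q (ρ.re - 1 / 2) (u - ρ.im))
  have hcl : ∀ ρ ∈ S, Continuous (fun u => Real.log (q (ρ.re - 1 / 2) (u - ρ.im))) := by
    intro ρ hρ
    exact (continuous_log_q (hx ρ hρ).1 (hx ρ hρ).2).comp (continuous_id.sub continuous_const)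
  have hφc : Continuous φ :=
    continuous_finsetSum S (fun ρ hρ => continuous_const.mul (hcl ρ hρ))
  have hP : ∀ u, ∏ ρ ∈ S, q (ρ.re - 1 / 2) (u - ρ.im) ^ (k * m ρ) = Real.exp (φ u) := by
    intro u
    simp only [φ]
    rw [Real.exp_sum]
    refine Finset.prod_congr rfl (fun ρ hρ => ?_)
    rw [Real.exp_nat_mul, Real.exp_log]
    exact lt_of_lt_of_le one_pos (one_le_q (hx ρ hρ).1 (hx ρ hρ).2 _)
  have hint : L * E0 ≤ ∫ u in a..b, φ u := by
    have h1 : ∫ u in a..b, φ u = ∑ ρ ∈ S, ∫ u in a..b, ((k * m ρ : ℕ) : ℝ) *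
        Real.log (q (ρ.re - 1 / 2) (u - ρ.im)) := by
      apply intervalIntegral.integral_finsetSum
      intro ρ hρ
      exact (continuous_const.mul (hcl ρ hρ)).intervalIntegrable _ _
    rw [h1]
    have h2 : L * E0 = ∑ ρ ∈ S, ((k * m ρ : ℕ) : ℝ) *
        (4 * Real.pi * (ρ.re - 1 / 2) * (1 - 2 / V)) := by
      rw [hE0, Finset.mul_sum, Finset.mul_sum]
      refine Finset.sum_congr rfl (fun ρ _ => ?_)
      push_cast
      field_simp
    rw [h2]
    refine Finset.sum_le_sum (fun ρ hρ => ?_)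
    rw [intervalIntegral.integral_const_mul]
    exact mul_le_mul_of_nonneg_left
      (window h (hx ρ hρ).1 (hx ρ hρ).2 hV (hS ρ hρ).2.2) (Nat.cast_nonneg _)
  have htan : ∫ u in a..b, Real.exp E0 * (1 + φ u - E0) ≤ ∫ u in a..b, Real.exp (φ u) := by
    apply intervalIntegral.integral_mono_on hab
    · exact (continuous_const.mul ((continuous_const.add hφc).sub
        continuous_const)).intervalIntegrable _ _
    · exact (Real.continuous_exp.comp hφc).intervalIntegrable _ _
    · intro u _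
      have h1 : Real.exp (φ u) = Real.exp E0 * Real.exp (φ u - E0) := by
        rw [← Real.exp_add]; congr 1; ring
      rw [h1]
      apply mul_le_mul_of_nonneg_left _ (Real.exp_pos _).le
      have := Real.add_one_le_exp (φ u - E0)
      linarith
  have hlin : ∫ u in a..b, Real.exp E0 * (1 + φ u - E0) =
      Real.exp E0 * (L + (∫ u in a..b, φ u) - L * E0) := by
    rw [intervalIntegral.integral_const_mul]
    congr 1
    have h1 : (fun u => 1 + φ u - E0) = fun u => φ u + (1 - E0) := by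
      funext u; ring
    rw [h1, intervalIntegral.integral_add (hφc.intervalIntegrable _ _)
      (continuous_const.intervalIntegrable _ _), intervalIntegral.integral_const, hba,
      smul_eq_mul]
    ring
  have hfin : Real.exp E0 * L ≤ ∫ u in a..b, Real.exp (φ u) := by
    refine le_trans ?_ htan
    rw [hlin]
    apply mul_le_mul_of_nonneg_left _ (Real.exp_pos _).le
    linarith
  simp only [hP]
  rw [inv_mul_eq_div, le_div_iff₀ hL0]
  exact hfin

end Pool.Agent.Y765.HW
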